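import Pool.Agent.E8helper60.AW.Stm
import Pool.Agent.Y275.NV.Wed
import Pool.Agent.Y705.NV.Nil
import Pool.Agent.Y705.NV.Ppt
import Pool.Agent.Y914.NV.Irr
import Pool.Agent.Y77.NV.Base
import Pool.Agent.Helper884.IC.Compl

/-!
# Irreducible trace functions of finite direct products
-/

set_option autoImplicit false

open scoped Classical

noncomputable section

namespace Pool.Agent.E8helper89.AW

open Pool.Agent.Y63.NV Pool.Agent.E8helper60.AW Representation

/-! ### tensor products of matrices -/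

section mat

variable {F : Type} [Field F] {ι : Type} [Fintype ι] {n : ι → ℕ}

/-- the Kronecker product of a family of matrices -/
def tm (A : ∀ i, Matrix (Fin (n i)) (Fin (n i)) F) :
    Matrix (∀ i, Fin (n i)) (∀ i, Fin (n i)) F :=
  Matrix.of fun a b => ∏ i, A i (a i) (b i)

theorem tm_mul (A B : ∀ i, Matrix (Fin (n i)) (Fin (n i)) F) :
    tm (fun i => A i * B i) = tm A * tm B := by
  ext a b
  simp only [tm, Matrix.of_apply, Matrix.mul_apply]
  rw [Finset.prod_univ_sum, Fintype.piFinset_univ]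
  exact Finset.sum_congr rfl fun k _ => Finset.prod_mul_distrib

theorem tm_one : tm (fun i => (1 : Matrix (Fin (n i)) (Fin (n i)) F)) = 1 := by
  ext a b
  simp only [tm, Matrix.of_apply, Matrix.one_apply]
  by_cases h : a = b
  · subst h
    simp
  · rw [if_neg h]
    obtain ⟨i, hi⟩ := Function.ne_iff.1 h
    exact Finset.prod_eq_zero (Finset.mem_univ i) (if_neg hi)

theorem tm_trace (A : ∀ i, Matrix (Fin (n i)) (Fin (n i)) F) :
    (tm A).trace = ∏ i, (A i).trace := by
  simp only [Matrix.trace, Matrix.diag, tm, Matrix.of_apply]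
  rw [Finset.prod_univ_sum, Fintype.piFinset_univ]

theorem tm_sum {K : ι → Type} [∀ i, Fintype (K i)] (c : ∀ i, K i → F)
    (A : ∀ i, K i → Matrix (Fin (n i)) (Fin (n i)) F) :
    tm (fun i => ∑ g, c i g • A i g) =
      ∑ x : (∀ i, K i), (∏ i, c i (x i)) • tm (fun i => A i (x i)) := by
  ext a b
  simp only [tm, Matrix.of_apply, Matrix.sum_apply, Matrix.smul_apply, smul_eq_mul]
  rw [Finset.prod_univ_sum, Fintype.piFinset_univ]
  exact Finset.sum_congr rfl fun k _ => Finset.prod_mul_distrib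

theorem tm_single (a b : ∀ i, Fin (n i)) :
    tm (fun i => Matrix.single (a i) (b i) (1 : F)) = Matrix.single a b 1 := by
  ext c d
  simp only [tm, Matrix.of_apply, Matrix.single_apply]
  by_cases h : a = c ∧ b = d
  · obtain ⟨rfl, rfl⟩ := h
    simp
  · rw [if_neg h]
    have h2 : ∃ i, ¬ (a i = c i ∧ b i = d i) := by
      by_contra hcon
      push Not at hcon
      exact h ⟨funext fun i => (hcon i).1, funext fun i => (hcon i).2⟩
    obtain ⟨i, hi⟩ := h2
    exact Finset.prod_eq_zero (Finset.mem_univ i) (if_neg hi)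

end mat

/-! ### matrix forms of irreducible traces -/

section irr

variable {F : Type} [Field F] [IsAlgClosed F] {N : Type} [Group N] [Finite N]

theorem matrix_form [Fintype N] (θ : N → F) (h : IsIrrTrace θ) :
    ∃ (d : ℕ) (_ : NeZero d) (M : N →* Matrix (Fin d) (Fin d) F),
      (∀ g, θ g = (M g).trace) ∧
      ∀ X : Matrix (Fin d) (Fin d) F, ∃ c : N → F, X = ∑ g, c g • M g := by
  obtain ⟨V, i1, i2, i3, ρ, hρ, rfl⟩ := h
  have := hρ
  have hnt : Nontrivial V := IsSimpleModule.nontrivial (MonoidAlgebra F N) ρ.asModule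
  let b := Module.finBasis F V
  have hd : Module.finrank F V ≠ 0 := Module.finrank_pos.ne'
  refine ⟨Module.finrank F V, ⟨hd⟩,
    ((LinearMap.toMatrixAlgEquiv b : Module.End F V ≃ₐ[F] _).toAlgHom : _ →* _).comp ρ, ?_, ?_⟩
  · intro g
    change LinearMap.trace F V (ρ g) = (LinearMap.toMatrixAlgEquiv b (ρ g)).trace
    rw [LinearMap.trace_eq_matrix_trace F b]
    rfl
  · intro X
    obtain ⟨a, ha⟩ := Pool.Agent.Y914.NV.burn (F := F) (A := MonoidAlgebra F N) (V := ρ.asModule)
      ((ρ.asModuleEquiv.symm : V →ₗ[F] ρ.asModule) ∘ₗ (Matrix.toLinAlgEquiv b X) ∘ₗ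
        (ρ.asModuleEquiv : ρ.asModule →ₗ[F] V))
    have h1 : ρ.asAlgebraHom a = Matrix.toLinAlgEquiv b X := by
      ext w
      rw [Pool.Agent.Y914.NV.act, ha]
      simp
    obtain ⟨c, hc⟩ := Pool.Agent.Y914.NV.expand a
    refine ⟨c, ?_⟩
    have h2 : X = LinearMap.toMatrixAlgEquiv b (ρ.asAlgebraHom a) := by
      rw [h1, LinearMap.toMatrixAlgEquiv_toLinAlgEquiv]
    rw [h2, hc, map_sum, map_sum]
    refine Finset.sum_congr rfl fun g _ => ?_
    rw [asAlgebraHom_single, map_smul]
    rfl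

theorem tens_irr {ι : Type} [Fintype ι] {K : ι → Type} [∀ i, Group (K i)] [∀ i, Finite (K i)]
    (θ : ∀ i, K i → F) (hθ : ∀ i, IsIrrTrace (θ i)) : IsIrrTrace (tens θ) := by
  haveI : ∀ i, Fintype (K i) := fun i => Fintype.ofFinite _
  choose n hn M hM hs using fun i => matrix_form (θ i) (hθ i)
  let MG : (∀ i, K i) →* Matrix (∀ i, Fin (n i)) (∀ i, Fin (n i)) F :=
    { toFun := fun x => tm fun i => M i (x i)
      map_one' := by
        have : (fun i => M i ((1 : ∀ i, K i) i)) = fun i => 1 := by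
          funext i
          rw [Pi.one_apply, map_one]
        rw [this, tm_one]
      map_mul' := fun x y => by
        have : (fun i => M i ((x * y) i)) = fun i => M i (x i) * M i (y i) := by
          funext i
          rw [Pi.mul_apply, map_mul]
        rw [this, tm_mul] }
  let D := Fintype.card (∀ i, Fin (n i))
  have hne : Nonempty (∀ i, Fin (n i)) := ⟨fun i => haveI := hn i; 0⟩
  haveI : NeZero D := ⟨Fintype.card_ne_zero⟩
  let e : (∀ i, Fin (n i)) ≃ Fin D := Fintype.equivFin _
  let π : MonoidAlgebra F (∀ i, K i) →ₐ[F] Matrix (Fin D) (Fin D) F :=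
    (Matrix.reindexAlgEquiv F F e).toAlgHom.comp (MonoidAlgebra.lift F _ _ MG)
  have hπs : ∀ x : ∀ i, K i, π (MonoidAlgebra.single x 1) = Matrix.reindexAlgEquiv F F e (MG x) := by
    intro x
    change Matrix.reindexAlgEquiv F F e (MonoidAlgebra.lift F _ _ MG (MonoidAlgebra.single x 1)) = _
    rw [MonoidAlgebra.lift_single, one_smul]
  have hsurj : Function.Surjective π := by
    have h1 : Function.Surjective (MonoidAlgebra.lift F _ _ MG) := by
      rw [← AlgHom.range_eq_top, eq_top_iff]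
      intro X _
      rw [Matrix.matrix_eq_sum_single X]
      refine Subalgebra.sum_mem _ fun a _ => Subalgebra.sum_mem _ fun b _ => ?_
      have h2 : Matrix.single a b (X a b) = (X a b) • Matrix.single a b (1 : F) := by
        rw [Matrix.smul_single, smul_eq_mul, mul_one]
      rw [h2]
      refine Subalgebra.smul_mem _ ?_ _
      choose c hc using fun i => hs i (Matrix.single (a i) (b i) 1)
      rw [← tm_single, funext hc, tm_sum]
      refine Subalgebra.sum_mem _ fun x _ => Subalgebra.smul_mem _ ?_ _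
      refine ⟨MonoidAlgebra.single x 1, ?_⟩
      change MonoidAlgebra.lift F _ _ MG (MonoidAlgebra.single x 1) = _
      rw [MonoidAlgebra.lift_single, one_smul]
      rfl
    exact (Matrix.reindexAlgEquiv F F e).surjective.comp h1
  refine ⟨Fin D → F, inferInstance, inferInstance, inferInstance, Pool.Agent.Y275.NV.rp π,
    Pool.Agent.Y275.NV.rp_irr π hsurj, ?_⟩
  funext x
  rw [Pool.Agent.Y275.NV.rp_char, hπs]
  have h3 : (Matrix.reindexAlgEquiv F F e (MG x)).trace = (MG x).trace := by
    rw [Matrix.coe_reindexAlgEquiv]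
    simp only [Matrix.trace, Matrix.diag, Matrix.reindex_apply, Matrix.submatrix_apply]
    exact e.symm.sum_comp fun a => MG x a a
  rw [h3]
  change ∏ i, θ i (x i) = (tm fun i => M i (x i)).trace
  rw [tm_trace]
  exact Finset.prod_congr rfl fun i _ => hM i (x i)

end irr

/-! ### spans of tensor products -/

section span

variable {F : Type} [Field F] {ι : Type} [Fintype ι] {K : ι → Type}

theorem tens_mem_span (S : ∀ i, Set (K i → F)) (f : ∀ i, K i → F)
    (hf : ∀ i, f i ∈ Submodule.span F (S i)) :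
    tens f ∈ Submodule.span F {h | ∃ θ : ∀ i, K i → F, (∀ i, θ i ∈ S i) ∧ h = tens θ} := by
  have h1 : ∀ i, ∃ (m : ℕ) (c : Fin m → F) (g : Fin m → (K i → F)),
      (∀ j, g j ∈ S i) ∧ f i = ∑ j, c j • g j := by
    intro i
    obtain ⟨m, c, g, h⟩ := Submodule.mem_span_set'.1 (hf i)
    exact ⟨m, c, fun j => (g j).1, fun j => (g j).2, h.symm⟩
  choose m c g hg hfg using h1
  have h2 : tens f = ∑ s : (∀ i, Fin (m i)), (∏ i, c i (s i)) • tens (fun i => g i (s i)) := by
    funext x
    simp only [tens, Finset.sum_apply, Pi.smul_apply, smul_eq_mul]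
    have h3 : ∀ i, f i (x i) = ∑ j, c i j * g i j (x i) := by
      intro i
      rw [hfg i]
      simp
    rw [Finset.prod_congr rfl fun i _ => h3 i, Finset.prod_univ_sum, Fintype.piFinset_univ]
    exact Finset.sum_congr rfl fun s _ => Finset.prod_mul_distrib
  rw [h2]
  refine Submodule.sum_mem _ fun s _ => Submodule.smul_mem _ _ (Submodule.subset_span ?_)
  exact ⟨fun i => g i (s i), fun i => hg i (s i), rfl⟩

end span

/-! ### the classification -/

theorem classify {F : Type} [Field F] [IsAlgClosed F] {ι : Type} [Fintype ι] {K : ι → Type}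
    [∀ i, Group (K i)] [∀ i, Finite (K i)] (r : ∀ i, K i → K i)
    (hr2 : ∀ i x, r i (r i x) = r i x) (hrc : ∀ i g x, r i (g * x * g⁻¹) = g * r i x * g⁻¹)
    (hspan : ∀ (i : ι) (f : K i → F), IsClassFun f → (∀ x, f (r i x) = f x) →
      f ∈ Submodule.span F {φ : K i → F | IsIrrTrace φ})
    (φ : (∀ i, K i) → F) (hφ : IsIrrTrace φ) (hφr : ∀ x, φ (fun i => r i (x i)) = φ x) :
    ∃ θ : ∀ i, K i → F, (∀ i, IsIrrTrace (θ i)) ∧ φ = tens θ := by
  haveI : ∀ i, Fintype (K i) := fun i => Fintype.ofFinite _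
  haveI : ∀ i, Fintype (ConjClasses (K i)) := fun i => Fintype.ofFinite _
  have hφc : ∀ g x, φ (g * x * g⁻¹) = φ x := by
    obtain ⟨V, i1, i2, i3, ρ, hρ, rfl⟩ := hφ
    intro g x
    exact ρ.char_conj x g
  have hout : ∀ c : ∀ i, ConjClasses (K i), ∀ x : ∀ i, K i,
      (∀ i, ConjClasses.mk (x i) = c i) → φ (fun i => (c i).out) = φ x := by
    intro c x h
    have h1 : ∀ i, ∃ g : K i, g * x i * g⁻¹ = (c i).out := by
      intro i
      have h2 : ConjClasses.mk (x i) = ConjClasses.mk (c i).out := by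
        rw [h i]
        exact (Quotient.out_eq (c i)).symm
      obtain ⟨g, hg⟩ := isConj_iff.1 (ConjClasses.mk_eq_mk_iff_isConj.1 h2)
      exact ⟨g, hg⟩
    choose g hg using h1
    have h3 : (fun i => (c i).out) = g * x * g⁻¹ := by
      funext i
      rw [Pi.mul_apply, Pi.mul_apply, Pi.inv_apply, hg]
    rw [h3, hφc]
  -- the indicator functions
  let δ : ∀ i, ConjClasses (K i) → K i → F := fun i C y =>
    if ConjClasses.mk (r i y) = C then 1 else 0
  have hδ : ∀ i C, δ i C ∈ Submodule.span F {φ : K i → F | IsIrrTrace φ} := by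
    intro i C
    refine hspan i _ ?_ ?_
    · intro g x
      have h1 : ConjClasses.mk (r i (g * x * g⁻¹)) = ConjClasses.mk (r i x) := by
        rw [hrc, ConjClasses.mk_eq_mk_iff_isConj]
        exact (isConj_iff.2 ⟨g, rfl⟩).symm
      simp only [δ, h1]
    · intro x
      simp only [δ, hr2]
  have hexp : φ = ∑ c : (∀ i, ConjClasses (K i)), φ (fun i => (c i).out) • tens (fun i => δ i (c i)) := by
    funext x
    rw [Finset.sum_apply, Finset.sum_eq_single (fun i => ConjClasses.mk (r i (x i)))]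
    · rw [Pi.smul_apply, hout _ (fun i => r i (x i)) (fun i => rfl), hφr]
      have h1 : tens (fun i => δ i (ConjClasses.mk (r i (x i)))) x = 1 := by
        simp [tens, δ]
      rw [h1, smul_eq_mul, mul_one]
    · intro c _ hc
      obtain ⟨i, hi⟩ := Function.ne_iff.1 hc
      have h1 : tens (fun i => δ i (c i)) x = 0 := by
        refine Finset.prod_eq_zero (Finset.mem_univ i) ?_
        exact if_neg fun h => hi h.symm
      rw [Pi.smul_apply, h1, smul_zero]
    · intro h
      exact absurd (Finset.mem_univ _) h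
  have hmem : φ ∈ Submodule.span F
      {h | ∃ θ : ∀ i, K i → F, (∀ i, θ i ∈ {φ : K i → F | IsIrrTrace φ}) ∧ h = tens θ} := by
    rw [hexp]
    refine Submodule.sum_mem _ fun c _ => Submodule.smul_mem _ _ ?_
    exact tens_mem_span (fun i => {φ : K i → F | IsIrrTrace φ}) _ fun i => hδ i (c i)
  by_contra hcon
  have hli := (Pool.Agent.Y914.NV.irr F (∀ i, K i)).2
  let s : Set {φ : (∀ i, K i) → F // IsIrrTrace φ} :=
    {ψ | ∃ θ : ∀ i, K i → F, (∀ i, IsIrrTrace (θ i)) ∧ ψ.1 = tens θ}
  have hns : (⟨φ, hφ⟩ : {φ : (∀ i, K i) → F // IsIrrTrace φ}) ∉ s := hcon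
  refine hli.notMem_span_image hns ?_
  refine Submodule.span_mono ?_ hmem
  rintro h ⟨θ, hθ, rfl⟩
  exact ⟨⟨tens θ, tens_irr θ hθ⟩, ⟨θ, hθ, rfl⟩, rfl⟩

theorem tens : S_TENS := by
  intro F _ _ ι _ K _ _ θ hθ
  exact tens_irr θ hθ

theorem tensp : S_TENSP := by
  intro p _ F _ _ _ ι _ K _ _ φ hφ
  refine classify (fun i => pp p) (fun i x => Pool.Agent.Y77.NV.pp_pp x)
    (fun i g x => Pool.Agent.Y77.NV.pp_conj g x) ?_ φ hφ ?_
  · intro i f hf hf'
    exact Pool.Agent.Y275.NV.wed F (K i) f hf (Pool.Agent.Y705.NV.nil p F (K i) f hf hf')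
  · intro x
    rw [← Pool.Agent.Y705.NV.ppt p F _ φ hφ x]
    congr 1
    funext i
    change (x i) ^ pexp p (K i) = (x ^ pexp p (∀ i, K i)) i
    rw [Pi.pow_apply]
    refine Pool.Agent.Y77.NV.pow_congr (p := p) (x i) _ _ fun e m hd hm => ?_
    have h1 := Pool.Agent.Y77.NV.pexp_modEq p (K i) e m hd hm
    have h3 : Nat.card (K i) ∣ Nat.card (∀ i, K i) := by
      rw [Nat.card_pi]
      exact Finset.dvd_prod_of_mem _ (Finset.mem_univ i)
    have h2 := Pool.Agent.Y77.NV.pexp_modEq p (∀ i, K i) e m (hd.trans h3) hm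
    exact ⟨h1.1.trans h2.1.symm, h1.2.trans h2.2.symm⟩

theorem tensc : S_TENSC := by
  intro ι _ K _ _ φ hφ
  refine classify (fun i => id) (fun i x => rfl) (fun i g x => rfl) ?_ φ hφ (fun x => rfl)
  intro i f hf _
  haveI := Fintype.ofFinite (K i)
  rw [Pool.Agent.Helper884.IC.expand f (fun g y => hf y g)]
  refine Submodule.sum_mem _ fun χ hχ => Submodule.smul_mem _ _ (Submodule.subset_span ?_)
  exact Pool.Agent.Helper884.IC.mem_Irr.1 hχ

end Pool.Agent.E8helper89.AW
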