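import Pool.Agent.E8helper92.OQ.Defs
import Pool.Agent.H619R2.QP.Final

/-!
# The graph of the reduction as a pair of lists, computable in polynomial time
-/

set_option autoImplicit false

namespace Pool.Agent.E8helper92.OQ

open Pool.Agent.NPC
open Pool.Agent.H619R2.QP (NoTwist NT Cr Cr_symm Cr_irrefl Cr_swap poly_prod)

/-- Boolean version of `FV` -/
def fvB (P : ℕ) (ts : NBI) (v : ℕ × ℕ) : Bool :=
  (decide (v.1 = 0) && decide (v.2 < P + 2)) ||
  ((decide (v.1 % 2 = 1) && (decide (v.1 ≤ 2 * Mf ts + 1) && decide (v.2 < P))) ||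
  (decide (v.1 = 2 * Mf ts + 2) && decide (v.2 < P + 2)))

theorem fvB_iff {P : ℕ} {ts : NBI} {v : ℕ × ℕ} : fvB P ts v = true ↔ FV P (Mf ts) v := by
  unfold fvB FV
  simp only [Bool.or_eq_true, Bool.and_eq_true, decide_eq_true_eq]

/-- Boolean version of `GV` -/
def gvB (P : ℕ) (ts : NBI) (v : ℕ × ℕ × ℕ) : Bool :=
  (decide (v.1 = 0) && (decide (v.2.1 = 0) && decide (v.2.2 < P + 1))) ||
  (decide (1 ≤ v.1) && (decide (v.1 ≤ Tf P ts) && (fvB P ts v.2 ||
    (decide (v.2.1 % 2 = 0) && (decide (2 ≤ v.2.1) &&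
      (decide (v.2.1 ≤ 2 * Mf ts) && decide (v.2.2 < nbf P ts)))))))

theorem gvB_iff {P : ℕ} {ts : NBI} {v : ℕ × ℕ × ℕ} :
    gvB P ts v = true ↔ GV P (Mf ts) (nbf P ts) (Tf P ts) v := by
  unfold gvB GV HV BV
  simp only [Bool.or_eq_true, Bool.and_eq_true, decide_eq_true_eq, fvB_iff]

/-- Boolean version of `Gd` -/
def gdB (s e : ℕ) : Bool :=
  (decide (s % 4 = 1) && decide (e < 2)) || (decide (s % 4 = 3) && (decide (2 ≤ e) && decide (e < 4)))

theorem gdB_iff {s e : ℕ} : gdB s e = true ↔ Gd s e := by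
  unfold gdB Gd
  simp only [Bool.or_eq_true, Bool.and_eq_true, decide_eq_true_eq]

/-- Boolean version of `nxt` -/
def nxB (w a b : ℕ) : Bool :=
  decide (b = a + 1) && (decide (4 ≤ a) && decide ((a - 4) % w + 1 < w))

theorem nxB_iff {w a b : ℕ} : nxB w a b = true ↔ nxt w a b := by
  unfold nxB nxt
  simp only [Bool.and_eq_true, decide_eq_true_eq]

/-- Boolean version of `xin` -/
def xiB (P c e : ℕ) : Bool :=
  decide (4 + (P + 3) * c ≤ e) && decide (e < 4 + (P + 3) * c + (P - 1))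

theorem xiB_iff {P c e : ℕ} : xiB P c e = true ↔ xin P c e := by
  unfold xiB xin
  simp only [Bool.and_eq_true, decide_eq_true_eq]

/-- Boolean version of `loc` -/
def loB (P : ℕ) (ts : NBI) (u v : ℕ × ℕ) : Bool :=
  ((decide (u.1 = 0) || decide (u.1 = 2 * Mf ts + 2)) && (decide (v.1 = u.1) && decide (u.2 < v.2))) ||
  ((decide (u.1 = 0) && (decide (u.2 = P + 1) && decide (v.1 = 2))) ||
  ((decide (u.1 = 2 * Mf ts) && (decide (v.1 = 2 * Mf ts + 2) && decide (v.2 = 0))) ||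
  ((decide (u.1 % 2 = 0) && (decide (2 ≤ u.1) && (decide (v.1 = u.1 + 2) &&
    (decide (v.1 ≤ 2 * Mf ts) && (decide (v.2 = u.2) || nxB (P + 3) u.2 v.2))))) ||
  ((decide (u.1 % 2 = 0) && (decide (2 ≤ u.1) && (decide (v.1 = u.1 + 1) && gdB v.1 u.2))) ||
  ((decide (u.1 % 2 = 1) && (decide (v.1 = u.1 + 1) && (decide (v.1 ≤ 2 * Mf ts) &&
    gdB u.1 v.2))) ||
  ((decide (u.1 % 2 = 0) && (decide (2 ≤ u.1) && (decide (u.1 < 2 * Mf ts) &&
    (decide (v.1 = u.1) && (xiB P (tX ts (u.1 / 2)) u.2 && xiB P (tY ts (u.1 / 2)) v.2))))) ||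
  (decide (u.1 % 2 = 0) && (decide (2 ≤ u.1) && (decide (u.1 < 2 * Mf ts) &&
    (decide (v.1 = u.1 + 1) && (decide (u.2 = 4 + (P + 3) * tZ ts (u.1 / 2) + 2) &&
    decide (v.2 = 0))))))))))))

theorem loB_iff {P : ℕ} {ts : NBI} {u v : ℕ × ℕ} :
    loB P ts u v = true ↔ loc P (Mf ts) (tX ts) (tY ts) (tZ ts) u v := by
  unfold loB loc
  simp only [Bool.or_eq_true, Bool.and_eq_true, decide_eq_true_eq, gdB_iff, nxB_iff, xiB_iff]

/-- Boolean version of `gadj` -/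
def gaB (P : ℕ) (ts : NBI) (u v : ℕ × ℕ × ℕ) : Bool :=
  (decide (u.1 = 0) && (decide (1 ≤ v.1) && fvB P ts v.2)) ||
  (decide (1 ≤ u.1) && (decide (v.1 = u.1) && loB P ts u.2 v.2))

theorem gaB_iff {P : ℕ} {ts : NBI} {u v : ℕ × ℕ × ℕ} :
    gaB P ts u v = true ↔ gadj P (Mf ts) (tX ts) (tY ts) (tZ ts) u v := by
  unfold gaB gadj
  simp only [Bool.or_eq_true, Bool.and_eq_true, decide_eq_true_eq, fvB_iff, loB_iff]

/-- a box which contains the vertices -/
def box (P : ℕ) (ts : NBI) : List (ℕ × ℕ × ℕ) :=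
  (List.range (Tf P ts + 1)).product ((List.range (2 * Mf ts + 3)).product
    (List.range (nbf P ts + (P + 2))))

/-- the vertices as triples -/
def VL (P : ℕ) (ts : NBI) : List (ℕ × ℕ × ℕ) := (box P ts).filter (gvB P ts)

/-- the edges as pairs of triples -/
def EL (P : ℕ) (ts : NBI) : List ((ℕ × ℕ × ℕ) × (ℕ × ℕ × ℕ)) :=
  ((VL P ts).product (VL P ts)).filter (fun p => gaB P ts p.1 p.2)

/-- names of the vertices -/
def cd (P : ℕ) (ts : NBI) (v : ℕ × ℕ × ℕ) : ℕ :=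
  (v.1 * (2 * Mf ts + 3) + v.2.1) * (nbf P ts + (P + 2)) + v.2.2

/-- from names to triples -/
def dc (P : ℕ) (ts : NBI) (n : ℕ) : ℕ × ℕ × ℕ :=
  (n / (nbf P ts + (P + 2)) / (2 * Mf ts + 3), n / (nbf P ts + (P + 2)) % (2 * Mf ts + 3),
    n % (nbf P ts + (P + 2)))

/-- the graph -/
def gr (P : ℕ) (ts : NBI) : List ℕ × List (ℕ × ℕ) :=
  ((VL P ts).map (cd P ts), (EL P ts).map (fun p => (cd P ts p.1, cd P ts p.2)))

section

variable {P : ℕ} {ts : NBI}

theorem gr_fst : (gr P ts).1 = (VL P ts).map (cd P ts) := rfl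

theorem gr_snd : (gr P ts).2 = (EL P ts).map (fun p => (cd P ts p.1, cd P ts p.2)) := rfl

theorem GV_bd {v : ℕ × ℕ × ℕ} (h : GV P (Mf ts) (nbf P ts) (Tf P ts) v) :
    v.1 < Tf P ts + 1 ∧ v.2.1 < 2 * Mf ts + 3 ∧ v.2.2 < nbf P ts + (P + 2) := by
  unfold GV HV FV BV at h
  omega

theorem mem_VL {v : ℕ × ℕ × ℕ} : v ∈ VL P ts ↔ GV P (Mf ts) (nbf P ts) (Tf P ts) v := by
  unfold VL
  rw [List.mem_filter, gvB_iff]
  constructor
  · exact fun h => h.2
  · intro h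
    refine ⟨?_, h⟩
    have hb := GV_bd h
    unfold box
    obtain ⟨a, b, c⟩ := v
    rw [List.pair_mem_product, List.pair_mem_product, List.mem_range, List.mem_range,
      List.mem_range]
    exact hb

theorem mem_EL {p : (ℕ × ℕ × ℕ) × (ℕ × ℕ × ℕ)} : p ∈ EL P ts ↔
    GV P (Mf ts) (nbf P ts) (Tf P ts) p.1 ∧ GV P (Mf ts) (nbf P ts) (Tf P ts) p.2 ∧
      gadj P (Mf ts) (tX ts) (tY ts) (tZ ts) p.1 p.2 := by
  unfold EL
  obtain ⟨u, v⟩ := p
  rw [List.mem_filter, List.pair_mem_product, mem_VL, mem_VL, gaB_iff]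
  tauto

theorem dc_cd {v : ℕ × ℕ × ℕ} (hv : GV P (Mf ts) (nbf P ts) (Tf P ts) v) :
    dc P ts (cd P ts v) = v := by
  obtain ⟨-, hb, hc⟩ := GV_bd hv
  obtain ⟨a, b, c⟩ := v
  dsimp only at hb hc
  have h1 : ((a * (2 * Mf ts + 3) + b) * (nbf P ts + (P + 2)) + c) / (nbf P ts + (P + 2)) =
      a * (2 * Mf ts + 3) + b := by
    rw [Nat.mul_comm _ (nbf P ts + (P + 2)), Nat.mul_add_div (by omega), Nat.div_eq_of_lt hc,
      Nat.add_zero]
  have h2 : ((a * (2 * Mf ts + 3) + b) * (nbf P ts + (P + 2)) + c) % (nbf P ts + (P + 2)) = c := by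
    rw [Nat.mul_comm _ (nbf P ts + (P + 2)), Nat.mul_add_mod, Nat.mod_eq_of_lt hc]
  have h3 : (a * (2 * Mf ts + 3) + b) / (2 * Mf ts + 3) = a := by
    rw [Nat.mul_comm a, Nat.mul_add_div (by omega), Nat.div_eq_of_lt hb, Nat.add_zero]
  have h4 : (a * (2 * Mf ts + 3) + b) % (2 * Mf ts + 3) = b := by
    rw [Nat.mul_comm a, Nat.mul_add_mod, Nat.mod_eq_of_lt hb]
  unfold dc cd
  dsimp only
  rw [h1, h2, h3, h4]

theorem cd_inj {u v : ℕ × ℕ × ℕ} (hu : GV P (Mf ts) (nbf P ts) (Tf P ts) u)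
    (hv : GV P (Mf ts) (nbf P ts) (Tf P ts) v) (h : cd P ts u = cd P ts v) : u = v := by
  rw [← dc_cd hu, ← dc_cd hv, h]

theorem tX_ne_tY (hts : NBok ts) {i : ℕ} (h1 : 1 ≤ i) (h2 : i < Mf ts) : tX ts i ≠ tY ts i := by
  unfold Mf at h2
  have h3 : i - 1 < ts.length := by omega
  have h4 : tst ts i ∈ ts := by
    unfold tst
    rw [List.getD_eq_getElem _ _ h3]
    exact List.getElem_mem _
  exact (hts _ h4).2.2.2.1

theorem xin_ne {c c' e : ℕ} (h : xin P c e) (h' : xin P c' e) : c = c' := by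
  unfold xin at h h'
  rcases lt_trichotomy c c' with hc | hc | hc
  · have : (P + 3) * (c + 1) ≤ (P + 3) * c' := Nat.mul_le_mul_left _ hc
    rw [Nat.mul_add, Nat.mul_one] at this
    omega
  · exact hc
  · have : (P + 3) * (c' + 1) ≤ (P + 3) * c := Nat.mul_le_mul_left _ hc
    rw [Nat.mul_add, Nat.mul_one] at this
    omega

theorem loc_cases {M : ℕ} {X Y Z : ℕ → ℕ} {u v : ℕ × ℕ} (h : loc P M X Y Z u v) :
    u.1 < v.1 ∨ (v.1 = u.1 ∧ (u.1 = 0 ∨ u.1 = 2 * M + 2) ∧ u.2 < v.2) ∨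
    (v.1 = u.1 ∧ u.1 % 2 = 0 ∧ 2 ≤ u.1 ∧ u.1 < 2 * M ∧ xin P (X (u.1 / 2)) u.2 ∧
      xin P (Y (u.1 / 2)) v.2) := by
  unfold loc at h
  rcases h with h | h | h | h | h | h | h | h
  · exact Or.inr (Or.inl ⟨h.2.1, h.1, h.2.2⟩)
  · left
    omega
  · left
    omega
  · left
    omega
  · left
    omega
  · left
    omega
  · exact Or.inr (Or.inr ⟨h.2.2.2.1, h.1, h.2.1, h.2.2.1, h.2.2.2.2.1, h.2.2.2.2.2⟩)
  · left
    omega

theorem loc_asymm (hts : NBok ts) {u v : ℕ × ℕ}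
    (h : loc P (Mf ts) (tX ts) (tY ts) (tZ ts) u v)
    (h' : loc P (Mf ts) (tX ts) (tY ts) (tZ ts) v u) : False := by
  rcases loc_cases h with h1 | h1 | h1
  · rcases loc_cases h' with h2 | h2 | h2 <;> omega
  · rcases loc_cases h' with h2 | h2 | h2 <;> omega
  · rcases loc_cases h' with h2 | h2 | h2
    · omega
    · omega
    · obtain ⟨a1, a2, a3, a4, a5, a6⟩ := h1
      obtain ⟨b1, b2, b3, b4, b5, b6⟩ := h2
      rw [a1] at b5 b6
      exact tX_ne_tY hts (i := u.1 / 2) (by omega) (by omega) (xin_ne a5 b6)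

theorem gadj_asymm (hts : NBok ts) {u v : ℕ × ℕ × ℕ}
    (h : gadj P (Mf ts) (tX ts) (tY ts) (tZ ts) u v)
    (h' : gadj P (Mf ts) (tX ts) (tY ts) (tZ ts) v u) : False := by
  rcases h with h | h
  · rcases h' with h' | h' <;> omega
  · rcases h' with h' | h'
    · omega
    · exact loc_asymm hts h.2.2 h'.2.2

theorem gr_isGraph (hts : NBok ts) :
    Pool.Agent.NPC.H634R2.IsGraph (gr P ts).1 (gr P ts).2 := by
  have hnd : (VL P ts).Nodup := by
    unfold VL box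
    exact (List.Nodup.product List.nodup_range
      (List.Nodup.product List.nodup_range List.nodup_range)).filter _
  unfold Pool.Agent.NPC.H634R2.IsGraph
  rw [gr_fst, gr_snd]
  refine ⟨?_, ?_, ?_⟩
  · refine List.Nodup.map_on (fun x hx y hy hxy => cd_inj (mem_VL.1 hx) (mem_VL.1 hy) hxy) hnd
  · intro e he
    rw [List.mem_map] at he
    obtain ⟨p, hp, rfl⟩ := he
    have hp' := mem_EL.1 hp
    refine ⟨List.mem_map_of_mem (mem_VL.2 hp'.1), List.mem_map_of_mem (mem_VL.2 hp'.2.1), ?_⟩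
    intro heq
    have h1 := cd_inj hp'.1 hp'.2.1 heq
    have h2 := hp'.2.2
    rw [h1] at h2
    exact gadj_asymm hts h2 h2
  · rw [List.map_map]
    refine List.Nodup.map_on (fun x hx y hy hxy => ?_) ((hnd.product hnd).filter _)
    have hx' := mem_EL.1 hx
    have hy' := mem_EL.1 hy
    simp only [Function.comp_apply, Sym2.eq_iff] at hxy
    rcases hxy with ⟨e1, e2⟩ | ⟨e1, e2⟩
    · exact Prod.ext (cd_inj hx'.1 hy'.1 e1) (cd_inj hx'.2.1 hy'.2.1 e2)
    · have e3 := cd_inj hx'.1 hy'.2.1 e1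
      have e4 := cd_inj hx'.2.1 hy'.1 e2
      have h1 := hx'.2.2
      rw [e3, e4] at h1
      exact (gadj_asymm hts h1 hy'.2.2).elim

theorem gr_iff :
    (∃ pos : ℕ → ℕ, (∀ u ∈ (gr P ts).1, ∀ v ∈ (gr P ts).1, pos u = pos v → u = v) ∧
      NoTwist (P + 2) (gr P ts).2 pos) ↔
    (∃ pos : ℕ × ℕ × ℕ → ℕ, (∀ u v, GV P (Mf ts) (nbf P ts) (Tf P ts) u →
      GV P (Mf ts) (nbf P ts) (Tf P ts) v → pos u = pos v → u = v) ∧
      NT (P + 2) pos (GA P (Mf ts) (nbf P ts) (Tf P ts) (tX ts) (tY ts) (tZ ts))) := by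
  classical
  constructor
  · rintro ⟨pos, hinj, hnt⟩
    refine ⟨fun v => pos (cd P ts v), ?_, ?_⟩
    · intro u v hu hv huv
      rw [gr_fst] at hinj
      refine cd_inj hu hv (hinj _ ?_ _ ?_ huv)
      · exact List.mem_map_of_mem (mem_VL.2 hu)
      · exact List.mem_map_of_mem (mem_VL.2 hv)
    · intro l hl hE hp
      refine hnt ?_
      set g : (ℕ × ℕ × ℕ) × (ℕ × ℕ × ℕ) → ℕ × ℕ := fun e =>
        if gaB P ts e.1 e.2 = true then (cd P ts e.1, cd P ts e.2) else (cd P ts e.2, cd P ts e.1)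
        with hg
      have hgE : ∀ e ∈ l, g e ∈ (gr P ts).2 := by
        intro e he
        obtain ⟨h1, h2, h3⟩ := hE e he
        rw [gr_snd, List.mem_map, hg]
        dsimp only
        split_ifs with h4
        · exact ⟨(e.1, e.2), mem_EL.2 ⟨h1, h2, gaB_iff.1 h4⟩, rfl⟩
        · refine ⟨(e.2, e.1), mem_EL.2 ⟨h2, h1, ?_⟩, rfl⟩
          rcases h3 with h3 | h3
          · exact absurd (gaB_iff.2 h3) h4
          · exact h3
      have hgc : (l.map g).Pairwise (Cr pos) := by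
        rw [List.pairwise_map]
        refine hp.imp ?_
        intro e f hef
        have hef' : Cr pos (cd P ts e.1, cd P ts e.2) (cd P ts f.1, cd P ts f.2) := hef
        have h1 := Cr_swap hef'
        rw [hg]
        dsimp only
        split_ifs
        · exact hef'
        · exact h1.2.1
        · exact h1.1
        · exact h1.2.2
      have hnd : (l.map g).Nodup := by
        refine hgc.imp ?_
        rintro e f hef rfl
        exact Cr_irrefl hef
      have hsym : Std.Symm (Cr pos) := ⟨fun _ _ h => Cr_symm h⟩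
      refine ⟨(l.map g).toFinset, ?_, ?_, ?_⟩
      · rw [List.toFinset_card_of_nodup hnd, List.length_map, hl]
      · intro e he
        rw [List.mem_toFinset, List.mem_map] at he
        obtain ⟨f, hf, rfl⟩ := he
        exact hgE f hf
      · intro e he f hf hne
        exact hgc.forall (List.mem_toFinset.1 he) (List.mem_toFinset.1 hf) hne
  · rintro ⟨pos, hinj, hnt⟩
    refine ⟨fun n => pos (dc P ts n), ?_, ?_⟩
    · intro u hu v hv huv
      rw [gr_fst, List.mem_map] at hu hv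
      obtain ⟨u', hu', rfl⟩ := hu
      obtain ⟨v', hv', rfl⟩ := hv
      rw [mem_VL] at hu' hv'
      dsimp only at huv
      rw [dc_cd hu', dc_cd hv'] at huv
      rw [hinj u' v' hu' hv' huv]
    · rintro ⟨S, hS, hSE, hcr⟩
      refine hnt (S.toList.map (fun e => (dc P ts e.1, dc P ts e.2))) ?_ ?_ ?_
      · rw [List.length_map, Finset.length_toList, hS]
      · intro e he
        rw [List.mem_map] at he
        obtain ⟨f, hf, rfl⟩ := he
        have hf' := hSE f (Finset.mem_toList.1 hf)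
        rw [gr_snd, List.mem_map] at hf'
        obtain ⟨p, hp, rfl⟩ := hf'
        have hp' := mem_EL.1 hp
        dsimp only
        rw [dc_cd hp'.1, dc_cd hp'.2.1]
        exact ⟨hp'.1, hp'.2.1, Or.inl hp'.2.2⟩
      · rw [List.pairwise_map]
        have := Finset.nodup_toList S
        refine List.Pairwise.imp_of_mem ?_ this
        intro e f he hf hne
        exact hcr e (Finset.mem_toList.1 he) f (Finset.mem_toList.1 hf) hne

end

/-! ### polynomial time -/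

theorem UPoly_Mf : UPoly Mf := UPoly.add (UPoly.length NPC.Poly.id) (UPoly.const 1)

theorem UPoly_nbf (P : ℕ) : UPoly (nbf P) :=
  UPoly.add (UPoly.const _) (UPoly.mul (UPoly.const _) (UPoly.add (UPoly.length NPC.Poly.id)
    (UPoly.const 1)))

theorem UPoly_Tf (P : ℕ) : UPoly (Tf P) :=
  UPoly.add (UPoly.mul (UPoly.const (P + 2)) (UPoly.mul (UPoly.const 2)
    (UPoly.mul (UPoly.add UPoly_Mf (UPoly.const 5)) (UPoly.const (P + 1))))) (UPoly.const 1)

@[fun_prop]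
theorem Poly_Mf {α : Type} [TEnc α] {f : α → NBI} (hf : NPC.Poly f) :
    NPC.Poly (fun a => Mf (f a)) := UPoly_Mf.toPoly.comp hf

@[fun_prop]
theorem Poly_nbf (P : ℕ) {α : Type} [TEnc α] {f : α → NBI} (hf : NPC.Poly f) :
    NPC.Poly (fun a => nbf P (f a)) := (UPoly_nbf P).toPoly.comp hf

@[fun_prop]
theorem Poly_Tf (P : ℕ) {α : Type} [TEnc α] {f : α → NBI} (hf : NPC.Poly f) :
    NPC.Poly (fun a => Tf P (f a)) := (UPoly_Tf P).toPoly.comp hf

theorem poly_box (P : ℕ) : NPC.Poly (box P) := by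
  have h1 : NPC.Poly (fun ts : NBI => List.range (Tf P ts + 1)) :=
    UPoly.range (UPoly.add (UPoly_Tf P) (UPoly.const 1))
  have h2 : NPC.Poly (fun ts : NBI => List.range (2 * Mf ts + 3)) :=
    UPoly.range (UPoly.add (UPoly.mul (UPoly.const 2) UPoly_Mf) (UPoly.const 3))
  have h3 : NPC.Poly (fun ts : NBI => List.range (nbf P ts + (P + 2))) :=
    UPoly.range (UPoly.add (UPoly_nbf P) (UPoly.const (P + 2)))
  exact poly_prod h1 (poly_prod h2 h3)

@[fun_prop]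
theorem Poly_fvB (P : ℕ) {α : Type} [TEnc α] {f : α → NBI} {v : α → ℕ × ℕ} (hf : NPC.Poly f)
    (hv : NPC.Poly v) : NPC.Poly (fun a => fvB P (f a) (v a)) := by
  unfold fvB
  fun_prop

@[fun_prop]
theorem Poly_gvB (P : ℕ) {α : Type} [TEnc α] {f : α → NBI} {v : α → ℕ × ℕ × ℕ}
    (hf : NPC.Poly f) (hv : NPC.Poly v) : NPC.Poly (fun a => gvB P (f a) (v a)) := by
  unfold gvB
  fun_prop

@[fun_prop]
theorem Poly_gdB {α : Type} [TEnc α] {s e : α → ℕ} (hs : NPC.Poly s) (he : NPC.Poly e) :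
    NPC.Poly (fun a => gdB (s a) (e a)) := by
  unfold gdB
  fun_prop

@[fun_prop]
theorem Poly_nxB (w : ℕ) {α : Type} [TEnc α] {s e : α → ℕ} (hs : NPC.Poly s) (he : NPC.Poly e) :
    NPC.Poly (fun a => nxB w (s a) (e a)) := by
  unfold nxB
  fun_prop

@[fun_prop]
theorem Poly_xiB (P : ℕ) {α : Type} [TEnc α] {s e : α → ℕ} (hs : NPC.Poly s) (he : NPC.Poly e) :
    NPC.Poly (fun a => xiB P (s a) (e a)) := by
  unfold xiB
  fun_prop

@[fun_prop]
theorem Poly_tst {α : Type} [TEnc α] {f : α → NBI} {s : α → ℕ} (hf : NPC.Poly f)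
    (hs : NPC.Poly s) : NPC.Poly (fun a => tst (f a) (s a)) := by
  unfold tst
  fun_prop

@[fun_prop]
theorem Poly_tX {α : Type} [TEnc α] {f : α → NBI} {s : α → ℕ} (hf : NPC.Poly f)
    (hs : NPC.Poly s) : NPC.Poly (fun a => tX (f a) (s a)) := by
  unfold tX
  fun_prop

@[fun_prop]
theorem Poly_tY {α : Type} [TEnc α] {f : α → NBI} {s : α → ℕ} (hf : NPC.Poly f)
    (hs : NPC.Poly s) : NPC.Poly (fun a => tY (f a) (s a)) := by
  unfold tY
  fun_prop

@[fun_prop]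
theorem Poly_tZ {α : Type} [TEnc α] {f : α → NBI} {s : α → ℕ} (hf : NPC.Poly f)
    (hs : NPC.Poly s) : NPC.Poly (fun a => tZ (f a) (s a)) := by
  unfold tZ
  fun_prop

@[fun_prop]
theorem Poly_loB (P : ℕ) {α : Type} [TEnc α] {f : α → NBI} {u v : α → ℕ × ℕ} (hf : NPC.Poly f)
    (hu : NPC.Poly u) (hv : NPC.Poly v) : NPC.Poly (fun a => loB P (f a) (u a) (v a)) := by
  unfold loB
  fun_prop

@[fun_prop]
theorem Poly_gaB (P : ℕ) {α : Type} [TEnc α] {f : α → NBI} {u v : α → ℕ × ℕ × ℕ}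
    (hf : NPC.Poly f) (hu : NPC.Poly u) (hv : NPC.Poly v) :
    NPC.Poly (fun a => gaB P (f a) (u a) (v a)) := by
  unfold gaB
  fun_prop

theorem poly_VL (P : ℕ) : NPC.Poly (VL P) := by
  unfold VL
  exact NPC.Poly.filter (p := gvB P) (poly_box P)
    (Poly_gvB P (NPC.Poly.fst NPC.Poly.id) (NPC.Poly.snd NPC.Poly.id))

theorem poly_EL (P : ℕ) : NPC.Poly (EL P) := by
  have h := poly_prod (poly_VL P) (poly_VL P)
  exact NPC.Poly.filter (p := fun (ts : NBI) (q : (ℕ × ℕ × ℕ) × (ℕ × ℕ × ℕ)) => gaB P ts q.1 q.2)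
    h (Poly_gaB P (NPC.Poly.fst NPC.Poly.id) (NPC.Poly.fst (NPC.Poly.snd NPC.Poly.id))
      (NPC.Poly.snd (NPC.Poly.snd NPC.Poly.id)))

theorem poly_cd {α : Type} [TEnc α] (P : ℕ) {f : α → NBI} {v : α → ℕ × ℕ × ℕ} (hf : NPC.Poly f)
    (hv : NPC.Poly v) : NPC.Poly (fun a => cd P (f a) (v a)) := by
  unfold cd
  fun_prop

theorem poly_gr1 (P : ℕ) : NPC.Poly (fun ts : NBI => (VL P ts).map (cd P ts)) :=
  NPC.Poly.map (F := fun (ts : NBI) (v : ℕ × ℕ × ℕ) => cd P ts v) (poly_VL P)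
    (poly_cd P (NPC.Poly.fst NPC.Poly.id) (NPC.Poly.snd NPC.Poly.id))

theorem poly_gr2 (P : ℕ) : NPC.Poly (fun ts : NBI =>
    (EL P ts).map (fun p => (cd P ts p.1, cd P ts p.2))) :=
  NPC.Poly.map (F := fun (ts : NBI) (p : (ℕ × ℕ × ℕ) × (ℕ × ℕ × ℕ)) => (cd P ts p.1, cd P ts p.2))
    (poly_EL P)
    (NPC.Poly.pair (poly_cd P (NPC.Poly.fst NPC.Poly.id)
        (NPC.Poly.fst (NPC.Poly.snd NPC.Poly.id)))
      (poly_cd P (NPC.Poly.fst NPC.Poly.id) (NPC.Poly.snd (NPC.Poly.snd NPC.Poly.id))))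

theorem poly_gr (P : ℕ) : NPC.Poly (gr P) := NPC.Poly.pair (poly_gr1 P) (poly_gr2 P)

end Pool.Agent.E8helper92.OQ
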